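import Mathlib
import Pool.Prelude.Def_F_c31e40fa
import Pool.Agent.R449.MB.Ar

set_option autoImplicit false

/-!
# Superattracting parameters near almost every boundary parameter of a Multibrot set

At Lebesgue almost every parameter `c` of the Multibrot set of degree `d`, in particular at almost
every boundary parameter, for every `κ < 2` all small discs `B(c, r)` contain at most `d ^ n * r ^ κ`
superattracting parameters of period dividing `n`, for all `n` at the same time, and the averages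
of `|a - c| ^ (-κ)` over these parameters `a` are bounded uniformly in `n`; if `c` is renormalizable
of period `p` then this holds for every `κ < 2 p`.
-/

open Filter Topology Set Metric MeasureTheory Complex N62a1eb23

namespace Pool.Agent.Results.MP_1365a2_an.BoundedMoments

/-- The map `z ↦ z ^ d + c`. -/
def f (d : ℕ) (c : ℂ) : ℂ → ℂ := fun z => z ^ d + c

/-- The superattracting parameters of period dividing `n`. -/
def centres (d n : ℕ) : Set ℂ := {a | (f d a)^[n] 0 = 0}

/-- `h` is proper of degree at most `d` from the bounded open set `U` onto a set which contains the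
closure of `U`. Polynomial-like maps of degree `d` have this property. -/
def PolynomialLike (d : ℕ) (h : ℂ → ℂ) (U : Set ℂ) : Prop :=
  IsOpen U ∧ Bornology.IsBounded U ∧ closure U ⊆ h '' U ∧
    (∀ K ⊆ h '' U, IsCompact K → IsCompact {z | z ∈ U ∧ h z ∈ K}) ∧
    ∀ w ∈ h '' U, {z | z ∈ U ∧ h z = w}.encard ≤ d

/-- `z ↦ z ^ d + c` is renormalizable of period `p`. -/
def Renormalizable (d : ℕ) (c : ℂ) (p : ℕ) : Prop :=
  ∃ U : Set ℂ, PolynomialLike d ((f d c)^[p]) U ∧ (0 : ℂ) ∈ U ∧
    (∀ n : ℕ, 1 ≤ n → (f d c)^[n * p] 0 ∈ U) ∧ ∀ z ∈ U, deriv ((f d c)^[p]) z = 0 → z = 0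

/-- All small discs of radius `r` about `c` contain at most `d ^ n * r ^ κ` superattracting
parameters of period dividing `n`, for all `n ≥ 1` at the same time. -/
def Sparse (d : ℕ) (κ : ℝ) (c : ℂ) : Prop :=
  ∀ᶠ r : ℝ in 𝓝[>] 0, ∀ n : ℕ, 1 ≤ n →
    ((centres d n ∩ ball c r).ncard : ℝ) ≤ (d : ℝ) ^ n * r ^ κ

/-- `c` is not superattracting, and the sum of `|a - c| ^ (-s)` over the superattracting parameters
`a` of period dividing `n` is at most a constant times `d ^ n`. -/
def BoundedMoments (d : ℕ) (s : ℝ) (c : ℂ) : Prop :=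
  (∀ n : ℕ, 1 ≤ n → c ∉ centres d n) ∧
    ∃ C : ℝ, ∀ n : ℕ, 1 ≤ n → ∑ᶠ a ∈ centres d n, dist a c ^ (-s) ≤ C * (d : ℝ) ^ n

/-- For `q = 1` and for every period `q` of renormalization the moments of all orders less than
`2 q` are bounded, and there are at most `d ^ n * r ^ κ` centres in small discs for all
`κ < 2 q`. -/
def Isolated (d : ℕ) (c : ℂ) : Prop :=
  ∀ q : ℕ, 1 ≤ q → (q = 1 ∨ Renormalizable d c q) → ∀ κ : ℝ, 0 < κ → κ < 2 * q →
    Sparse d κ c ∧ BoundedMoments d κ c

theorem centres_eq {d : ℕ} (hd : 2 ≤ d) (N : ℕ) :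
    centres d (N + 1) = ((Pool.Agent.R240.LL.ZZ d N : Finset ℂ) : Set ℂ) := by
  ext a
  rw [Finset.mem_coe, Pool.Agent.R240.LL.mem_ZZ hd]
  rfl

theorem inter_eq (d n : ℕ) (c : ℂ) (r : ℝ) :
    centres d n ∩ ball c r = Pool.Agent.R240.Sparse.cen d n c r := by
  ext a
  exact and_comm

theorem sparse_iff (d : ℕ) (κ : ℝ) (c : ℂ) :
    Sparse d κ c ↔ Pool.Agent.R449.MB.FewAt d κ c := by
  unfold Sparse Pool.Agent.R449.MB.FewAt
  simp only [inter_eq]

theorem moments_iff {d : ℕ} (hd : 2 ≤ d) (s : ℝ) (c : ℂ) :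
    BoundedMoments d s c ↔ Pool.Agent.R449.MB.MomAt d s c := by
  unfold BoundedMoments Pool.Agent.R449.MB.MomAt
  refine and_congr Iff.rfl ?_
  constructor
  · rintro ⟨C, hC⟩
    refine ⟨C, fun N => ?_⟩
    have h1 := hC (N + 1) (by omega)
    rw [centres_eq hd, finsum_mem_coe_finset] at h1
    simpa only [dist_eq_norm] using h1
  · rintro ⟨C, hC⟩
    refine ⟨C, fun n hn => ?_⟩
    obtain ⟨N, rfl⟩ : ∃ N, n = N + 1 := ⟨n - 1, by omega⟩
    have h1 := hC N
    rw [centres_eq hd, finsum_mem_coe_finset]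
    simpa only [dist_eq_norm] using h1

theorem isolated_iff {d : ℕ} (hd : 2 ≤ d) (c : ℂ) :
    Isolated d c ↔ Pool.Agent.R449.MB.Nice2 d c := by
  unfold Isolated Pool.Agent.R449.MB.Nice2
  simp only [sparse_iff, moments_iff hd]
  exact Iff.rfl

/-- **Superattracting parameters near almost every boundary parameter.** -/
theorem result (d : ℕ) (hd : 2 ≤ d) :
    (∀ n : ℕ, 1 ≤ n → (centres d n).Finite) ∧
      volume {c : ℂ | c ∈ multibrotSet d ∧ ¬ Isolated d c} = 0 ∧
      (volume (frontier (multibrotSet d)) = 0 ↔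
        volume {c : ℂ | c ∈ frontier (multibrotSet d) ∧ Isolated d c} = 0) := by
  have h0 : volume {c : ℂ | c ∈ multibrotSet d ∧ ¬ Isolated d c} = 0 := by
    simp only [isolated_iff hd]
    exact Pool.Agent.R449.MB.null_nice2 hd
  refine ⟨?_, h0, ?_, ?_⟩
  · intro n hn
    obtain ⟨N, rfl⟩ : ∃ N, n = N + 1 := ⟨n - 1, by omega⟩
    rw [centres_eq hd]
    exact (Pool.Agent.R240.LL.ZZ d N).finite_toSet
  · intro h
    refine measure_mono_null ?_ h
    rintro c ⟨hc, -⟩
    exact hc
  · intro h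
    refine measure_mono_null (t := {c : ℂ | c ∈ frontier (multibrotSet d) ∧ Isolated d c} ∪
      {c : ℂ | c ∈ multibrotSet d ∧ ¬ Isolated d c}) ?_ (measure_union_null h h0)
    intro c hc
    by_cases h1 : Isolated d c
    · exact Or.inl ⟨hc, h1⟩
    · exact Or.inr ⟨(Pool.Agent.H712R2.isCompact_multibrot hd).isClosed.frontier_subset hc, h1⟩

end Pool.Agent.Results.MP_1365a2_an.BoundedMoments
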